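import Mathlib

namespace Q120.EII

open Combinatorics

/-- the numbers `v` with `2 ^ t * v ∈ B` -/
def sh (t : ℕ) (B : Set ℕ) : Set ℕ := {v | 2 ^ t * v ∈ B}

lemma sh_mono {t : ℕ} {A B : Set ℕ} (h : A ⊆ B) : sh t A ⊆ sh t B := fun _ hv => h hv

lemma sh_sh (s t : ℕ) (B : Set ℕ) : sh s (sh t B) = sh (t + s) B := by
  ext v
  simp only [sh, Set.mem_ofPred_eq]
  rw [pow_add, mul_assoc]

lemma sh_zero (B : Set ℕ) : sh 0 B = B := by
  ext v; simp [sh]

/-- the set contains all finite sums of a sequence of positive integers -/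
def IPr (B : Set ℕ) : Prop := ∃ a : Stream' ℕ, Hindman.FS a ⊆ B \ {0}

lemma IPr.mono {A B : Set ℕ} (h : A ⊆ B) (hA : IPr A) : IPr B := by
  obtain ⟨a, ha⟩ := hA
  exact ⟨a, fun x hx => ⟨h (ha hx).1, (ha hx).2⟩⟩

lemma IPr.union {A B : Set ℕ} (h : IPr (A ∪ B)) : IPr A ∨ IPr B := by
  obtain ⟨a, ha⟩ := h
  obtain ⟨c, hc, b, hb⟩ := Hindman.FS_partition_regular a {A \ {0}, B \ {0}} (Set.toFinite _) (by
    intro x hx
    have := ha hx
    rcases this.1 with h1 | h1
    · exact ⟨A \ {0}, by simp, ⟨h1, this.2⟩⟩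
    · exact ⟨B \ {0}, by simp, ⟨h1, this.2⟩⟩)
  rcases hc with rfl | hc
  · exact Or.inl ⟨b, hb⟩
  · rw [Set.mem_singleton_iff] at hc
    subst hc
    exact Or.inr ⟨b, hb⟩

lemma FS_map {a : Stream' ℕ} {f : ℕ → ℕ} (hf : ∀ x y, f (x + y) = f x + f y) {m : ℕ}
    (hm : m ∈ Hindman.FS (a.map f)) : ∃ m' ∈ Hindman.FS a, m = f m' := by
  generalize hb : a.map f = b at hm
  induction hm generalizing a with
  | head' b =>
    subst hb
    exact ⟨a.head, Hindman.FS.head' a, rfl⟩
  | tail' b m _ ih =>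
    subst hb
    obtain ⟨m', h1, h2⟩ := ih (a := a.tail) rfl
    exact ⟨m', Hindman.FS.tail' a m' h1, h2⟩
  | cons' b m _ ih =>
    subst hb
    obtain ⟨m', h1, h2⟩ := ih (a := a.tail) rfl
    refine ⟨a.head + m', Hindman.FS.cons' a m' h1, ?_⟩
    rw [hf, ← h2]
    rfl

lemma FS_pos {a : Stream' ℕ} (ha : ∀ i, 0 < a.get i) {m : ℕ} (hm : m ∈ Hindman.FS a) : 0 < m := by
  induction hm with
  | head' b => exact ha 0
  | tail' b m _ ih => exact ih (fun i => ha (i + 1))
  | cons' b m _ ih =>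
    have := ih (fun i => ha (i + 1))
    omega

lemma IPr_univ : IPr Set.univ := by
  refine ⟨Stream'.const 1, fun x hx => ⟨trivial, ?_⟩⟩
  have := FS_pos (a := Stream'.const 1) (by intro i; simp) hx
  simp; omega

lemma IPr_double {B : Set ℕ} (h : IPr (sh 1 B)) : IPr B := by
  obtain ⟨a, ha⟩ := h
  refine ⟨a.map (fun x => 2 * x), fun x hx => ?_⟩
  obtain ⟨m, hm, rfl⟩ := FS_map (f := fun x => 2 * x) (fun x y => by ring) hx
  have := ha hm
  refine ⟨?_, ?_⟩
  · have h1 := this.1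
    simpa [sh] using h1
  · have h2 := this.2
    simp at h2 ⊢
    exact h2

lemma FS_large {a : Stream' ℕ} (ha : ∀ m ∈ Hindman.FS a, 0 < m) (k : ℕ) :
    ∃ m ∈ Hindman.FS a, k < m := by
  induction k generalizing a with
  | zero => exact ⟨a.head, Hindman.FS.head' a, ha _ (Hindman.FS.head' a)⟩
  | succ k ih =>
    obtain ⟨m, hm, hk⟩ := ih (a := a.tail) (fun m hm => ha m (Hindman.FS.tail' a m hm))
    have := ha _ (Hindman.FS.head' a)
    exact ⟨a.head + m, Hindman.FS.cons' a m hm, by omega⟩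

lemma not_IPr_le (N : ℕ) : ¬ IPr {v | v ≤ N} := by
  rintro ⟨a, ha⟩
  obtain ⟨m, hm, hk⟩ := FS_large (a := a) (fun m hm => by
    have := (ha hm).2
    simp at this; omega) N
  have := (ha hm).1
  simp at this
  omega

/-- a partition regular family of sets with finite sums, stable under doubling -/
structure Good (G : Set (Set ℕ)) : Prop where
  univ : Set.univ ∈ G
  up : ∀ A B : Set ℕ, A ⊆ B → A ∈ G → B ∈ G
  reg : ∀ A B : Set ℕ, A ∪ B ∈ G → A ∈ G ∨ B ∈ G
  inv : ∀ B : Set ℕ, sh 1 B ∈ G → B ∈ G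
  ip : ∀ B ∈ G, IPr B

lemma good_IPr : Good {B | IPr B} where
  univ := IPr_univ
  up := fun _ _ h hA => IPr.mono h hA
  reg := fun _ _ h => IPr.union h
  inv := fun _ h => IPr_double h
  ip := fun _ h => h

lemma exists_minimal_good : ∃ G, Minimal (fun G => G ∈ {G | Good G}) G := by
  obtain ⟨m, _, hm⟩ := zorn_superset_nonempty {G | Good G} (by
    intro c hc hchain hne
    refine ⟨⋂₀ c, ?_, fun s hs => Set.sInter_subset_of_mem hs⟩
    obtain ⟨g0, hg0⟩ := hne
    refine ⟨?_, ?_, ?_, ?_, ?_⟩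
    · exact fun g hg => (hc hg).univ
    · exact fun A B hAB hA g hg => (hc hg).up A B hAB (hA g hg)
    · intro A B hAB
      by_contra hcon
      rw [not_or] at hcon
      obtain ⟨h1, h2⟩ := hcon
      simp only [Set.mem_sInter, not_forall] at h1 h2
      obtain ⟨g1, hg1, h1⟩ := h1
      obtain ⟨g2, hg2, h2⟩ := h2
      rcases hchain.total hg1 hg2 with h | h
      · rcases (hc hg1).reg A B (hAB g1 hg1) with h3 | h3
        · exact h1 h3
        · exact h2 (h h3)
      · rcases (hc hg2).reg A B (hAB g2 hg2) with h3 | h3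
        · exact h1 (h h3)
        · exact h2 h3
    · exact fun B hB g hg => (hc hg).inv B (hB g hg)
    · exact fun B hB => (hc hg0).ip B (hB g0 hg0)) {B | IPr B} good_IPr
  exact ⟨m, hm⟩

variable {G : Set (Set ℕ)}

lemma Good.inv_n (hG : Good G) (n : ℕ) {B : Set ℕ} (h : sh n B ∈ G) : B ∈ G := by
  induction n generalizing B with
  | zero => rwa [sh_zero] at h
  | succ n ih =>
    apply hG.inv
    apply ih
    rw [sh_sh, add_comm]
    exact h

lemma Good.empty (hG : Good G) : ∅ ∉ G := by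
  intro h
  obtain ⟨a, ha⟩ := hG.ip _ h
  exact (ha (Hindman.FS.head' a)).1

lemma Good.biUnion (hG : Good G) {ι : Type*} (s : Finset ι) (f : ι → Set ℕ)
    (h : (⋃ i ∈ s, f i) ∈ G) : ∃ i ∈ s, f i ∈ G := by
  classical
  induction s using Finset.induction_on with
  | empty => simp at h; exact absurd h hG.empty
  | insert a s _ ih =>
    rw [Finset.set_biUnion_insert] at h
    rcases hG.reg _ _ h with h1 | h1
    · exact ⟨a, by simp, h1⟩
    · obtain ⟨i, hi, h2⟩ := ih h1
      exact ⟨i, by simp [hi], h2⟩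

lemma Good.compl (hG : Good G) {A : Set ℕ} (h : A ∉ G) : Aᶜ ∈ G := by
  rcases hG.reg A Aᶜ (by rw [Set.union_compl_self]; exact hG.univ) with h1 | h1
  · exact absurd h1 h
  · exact h1

/-- the set of points whose orbit under doubling avoids `B` up to time `M` -/
def Av (B : Set ℕ) (M : ℕ) : Set ℕ := {v | ∀ i ≤ M, v ∉ sh i B}

lemma Av_anti {B : Set ℕ} {M N : ℕ} (h : M ≤ N) : Av B N ⊆ Av B M :=
  fun _ hv i hi => hv i (hi.trans h)

lemma synd (hG : Minimal (fun G => G ∈ {G | Good G}) G) {B : Set ℕ} (hB : B ∈ G) :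
    ∃ M, Av B M ∉ G := by
  by_contra hcon
  push Not at hcon
  have hg : Good G := hG.1
  have h' : Good {A | ∀ M, A ∩ Av B M ∈ G} := by
    refine ⟨?_, ?_, ?_, ?_, ?_⟩
    · intro M; rw [Set.univ_inter]; exact hcon M
    · exact fun A C hAC hA M => hg.up _ _ (Set.inter_subset_inter_left _ hAC) (hA M)
    · intro A C hAC
      by_contra hcon2
      rw [not_or] at hcon2
      obtain ⟨h1, h2⟩ := hcon2
      simp only [Set.mem_ofPred_eq, not_forall] at h1 h2
      obtain ⟨M1, h1⟩ := h1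
      obtain ⟨M2, h2⟩ := h2
      have h3 := hAC (max M1 M2)
      rw [Set.union_inter_distrib_right] at h3
      rcases hg.reg _ _ h3 with h4 | h4
      · exact h1 (hg.up _ _ (Set.inter_subset_inter_right _ (Av_anti (le_max_left _ _))) h4)
      · exact h2 (hg.up _ _ (Set.inter_subset_inter_right _ (Av_anti (le_max_right _ _))) h4)
    · intro A hA M
      apply hg.inv
      refine hg.up _ _ ?_ (hA (M + 1))
      rintro v ⟨h1, h2⟩
      refine ⟨h1, ?_⟩
      intro i hi
      have h3 := h2 (i + 1) (by omega)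
      intro h4
      apply h3
      have h5 : v ∈ sh 1 (sh i B) := h4
      rwa [sh_sh] at h5
    · intro A hA
      exact (hg.ip _ (hA 0)).mono Set.inter_subset_left
  have hle : {A | ∀ M, A ∩ Av B M ∈ G} ⊆ G :=
    fun A hA => hg.up _ _ Set.inter_subset_left (hA 0)
  have := hG.2 h' hle hB 0
  have he : B ∩ Av B 0 = ∅ := by
    ext v
    constructor
    · rintro ⟨h1, h2⟩
      have := h2 0 le_rfl
      rw [sh_zero] at this
      exact absurd h1 this
    · intro h; exact absurd h (Set.notMem_empty v)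
  rw [he] at this
  exact hg.empty this

/-- IP recurrence in a minimal family -/
lemma ret (hG : Minimal (fun G => G ∈ {G | Good G}) G) {B : Set ℕ} (hB : B ∈ G)
    (C : Finset ℕ) (a : Stream' ℕ) :
    ∃ s ∈ Hindman.FS a, {v | v ∈ B ∧ ∀ c ∈ C, v ∈ sh (c * s) B} ∈ G := by
  classical
  have hg : Good G := hG.1
  obtain ⟨M, hM⟩ := synd hG hB
  let α := {c // c ∈ insert 0 C}
  have hα : Fintype α := inferInstanceAs (Fintype {c // c ∈ insert 0 C})
  obtain ⟨ι, hι, hHJ⟩ := Line.exists_mono_in_high_dimension α (Fin (M + 1))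
  let idx : ι → ℕ := fun d => (Fintype.equivFin ι d : ℕ)
  have hidx : Function.Injective idx := by
    intro x y h
    exact (Fintype.equivFin ι).injective (Fin.ext h)
  let nn : (ι → α) → ℕ := fun ω => ∑ d, (ω d : ℕ) * a.get (idx d)
  have hE : (⋃ ω ∈ (Finset.univ : Finset (ι → α)), sh (nn ω) (Av B M)) ∉ G := by
    intro h
    obtain ⟨ω, _, h1⟩ := hg.biUnion _ _ h
    exact hM (hg.inv_n _ h1)
  have hEc := hg.compl hE
  let H : (ι → Option α) × Fin (M + 1) → Set ℕ := fun p =>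
    {v | (∃ d, p.1 d = none) ∧ ∀ x : α, 2 ^ (p.2 : ℕ) * (2 ^ (nn fun d => (p.1 d).getD x) * v) ∈ B}
  have hcov : (⋃ ω ∈ (Finset.univ : Finset (ι → α)), sh (nn ω) (Av B M))ᶜ ⊆
      ⋃ p ∈ (Finset.univ : Finset ((ι → Option α) × Fin (M + 1))), H p := by
    intro v hv
    have h1 : ∀ ω : ι → α, ∃ i : Fin (M + 1), 2 ^ (i : ℕ) * (2 ^ (nn ω) * v) ∈ B := by
      intro ω
      by_contra hcon
      apply hv
      simp only [Set.mem_iUnion]
      refine ⟨ω, Finset.mem_univ _, ?_⟩
      intro i hi h2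
      exact hcon ⟨⟨i, by omega⟩, h2⟩
    choose col hcol using h1
    obtain ⟨l, i, hl⟩ := hHJ col
    simp only [Set.mem_iUnion]
    refine ⟨(l.idxFun, i), Finset.mem_univ _, l.proper, ?_⟩
    intro x
    have h2 := hcol (l x)
    rw [hl x] at h2
    exact h2
  obtain ⟨p, _, hp⟩ := hg.biUnion _ _ (hg.up _ _ hcov hEc)
  have hprop : ∃ d, p.1 d = none := by
    by_contra hcon
    have : H p = ∅ := by
      ext v
      constructor
      · intro h; exact absurd h.1 hcon
      · intro h; exact absurd h (Set.notMem_empty v)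
    rw [this] at hp
    exact hg.empty hp
  let F : Finset ι := Finset.univ.filter (fun d => p.1 d = none)
  have hF : F.Nonempty := by
    obtain ⟨d, hd⟩ := hprop
    exact ⟨d, by simp [F, hd]⟩
  let s : ℕ := ∑ d ∈ F, a.get (idx d)
  let z : α := ⟨0, by simp⟩
  let A : ℕ := nn fun d => (p.1 d).getD z
  have hnn : ∀ x : α, nn (fun d => (p.1 d).getD x) = A + x * s := by
    intro x
    simp only [nn, A, s]
    rw [Finset.mul_sum, Finset.sum_filter, ← Finset.sum_add_distrib]
    apply Finset.sum_congr rfl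
    intro d _
    by_cases h : p.1 d = none
    · simp [h, z]
    · obtain ⟨y, hy⟩ := Option.ne_none_iff_exists'.1 h
      simp [hy]
  have hs : s ∈ Hindman.FS a := by
    have h1 := Hindman.FS.finsetSum a (F.image idx) (hF.image idx)
    rwa [Finset.sum_image (fun x _ y _ h => hidx h)] at h1
  refine ⟨s, hs, ?_⟩
  apply hg.inv_n ((p.2 : ℕ) + A)
  refine hg.up _ _ ?_ hp
  intro v hv
  have key : ∀ x : α, 2 ^ ((p.2 : ℕ) + A + x * s) * v ∈ B := by
    intro x
    have h1 := hv.2 x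
    rw [hnn x] at h1
    rw [pow_add, pow_add, mul_assoc, mul_assoc]
    rw [pow_add, mul_assoc] at h1
    exact h1
  constructor
  · have := key z
    simpa [z] using this
  · intro c hc
    have h1 := key ⟨c, by simp [hc]⟩
    simp only at h1
    show 2 ^ (c * s) * (2 ^ ((p.2 : ℕ) + A) * v) ∈ B
    rw [← mul_assoc, ← pow_add, add_comm]
    exact h1

end Q120.EII
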